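import Mathlib.Analysis.CStarAlgebra.Classes
import Mathlib.MeasureTheory.Integral.CircleAverage

/-!
Definitions for the residual function of a negative plurisubharmonic function
(problem MP_1ea83a_an).  Functions take values in `EReal`, the value `⊥` being minus infinity.
-/

set_option autoImplicit false

open Filter Topology

namespace Pool.Agent.MP_1ea83a_an

/-- Complex Euclidean space of dimension `n`. -/
abbrev Cn (n : ℕ) : Type := EuclideanSpace ℂ (Fin n)

/-- `u` is plurisubharmonic on `D`, with values in `[-∞, ∞)` (the constant `-∞` is allowed here):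
it is upper semicontinuous on `D`, never `+∞` on `D`, and for every closed complex disc
`{z + t w : |t| ≤ 1}` contained in `D` the value `u z` is at most the mean of `u` over the boundary
circle.  That mean, a number in `[-∞, ∞)`, is the infimum over real `M` of the means of the bounded
truncations `max u M`. -/
def IsPSH {n : ℕ} (D : Set (Cn n)) (u : Cn n → EReal) : Prop :=
  UpperSemicontinuousOn u D ∧ (∀ z ∈ D, u z ≠ ⊤) ∧
    ∀ z w : Cn n, (∀ t : ℂ, ‖t‖ ≤ 1 → z + t • w ∈ D) → ∀ M : ℝ,
      u z ≤ ((Real.circleAverage (fun t : ℂ => (max (u (z + t • w)) (M : EReal)).toReal) 0 1 : ℝ) :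
        EReal)

/-- `u` belongs to `PSH⁻(D)`: plurisubharmonic on `D`, at most `0` on `D`, and not identically
`-∞` on `D`. -/
def IsNegPSH {n : ℕ} (D : Set (Cn n)) (u : Cn n → EReal) : Prop :=
  IsPSH D u ∧ (∀ z ∈ D, u z ≤ 0) ∧ ∃ z ∈ D, u z ≠ ⊥

/-- `D` is B-regular: every continuous real function on the boundary of `D` extends to a function
continuous on the closure of `D` and plurisubharmonic on `D`. -/
def IsBRegular {n : ℕ} (D : Set (Cn n)) : Prop :=
  ∀ f : Cn n → ℝ, ContinuousOn f (frontier D) →
    ∃ u : Cn n → ℝ, ContinuousOn u (closure D) ∧ IsPSH D (fun z => (u z : EReal)) ∧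
      Set.EqOn u f (frontier D)

/-- Upper semicontinuous regularisation on `D`: `f*(z) = limsup_{x → z, x ∈ D} f(x)`. -/
noncomputable def uscReg {n : ℕ} (D : Set (Cn n)) (f : Cn n → EReal) (z : Cn n) : EReal :=
  limsup f (𝓝[D] z)

/-- The plurisubharmonic envelope `P(h) = (sup {v psh on D : v ≤ h on D})*`. -/
noncomputable def envelope {n : ℕ} (D : Set (Cn n)) (h : Cn n → EReal) : Cn n → EReal :=
  uscReg D fun x => ⨆ v ∈ {v : Cn n → EReal | IsPSH D v ∧ ∀ y ∈ D, v y ≤ h y}, v x

/-- The residual (Green-Poisson) function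
`g_φ = (sup {v ∈ PSH⁻(D) : v ≤ φ + C on D for some real constant C})*`. -/
noncomputable def residual {n : ℕ} (D : Set (Cn n)) (φ : Cn n → EReal) : Cn n → EReal :=
  uscReg D fun x =>
    ⨆ v ∈ {v : Cn n → EReal | IsNegPSH D v ∧ ∃ C : ℝ, ∀ y ∈ D, v y ≤ φ y + (C : EReal)}, v x

open Classical in
/-- The residual second term `r_φ = P(φ - g_φ)`, the difference being considered off the set
`{g_φ = -∞}`: no constraint (the value `+∞`) is put on that set. -/
noncomputable def secondTerm {n : ℕ} (D : Set (Cn n)) (φ : Cn n → EReal) : Cn n → EReal :=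
  envelope D fun z => if residual D φ z = ⊥ then ⊤ else φ z - residual D φ z

end Pool.Agent.MP_1ea83a_an
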