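import Mathlib.Topology.Sheaves.Presheaf
import Mathlib.Tactic.Monotonicity.Lemmas
import Mathlib.Analysis.SpecialFunctions.Log.ENNRealLogExp
import Mathlib.Analysis.CStarAlgebra.Module.Constructions
import Mathlib.Analysis.Complex.JensenFormula
import Mathlib.Analysis.Convex.Continuous
import Mathlib.Order.CompletePartialOrder
import Pool.Agent.MP_1ea83a_an.Defs

-- ======== part 0: formerly Pool.Agent.MP_1ea83a_an.Basic
section MrgPart0

/-!
General facts: comparison with continuous majorants, a maximum principle in the plane,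
plurisubharmonicity of the logarithm of the modulus of a holomorphic function.
-/

set_option autoImplicit false

open Filter Topology Metric Real

namespace Pool.Agent.MP_1ea83a_an

lemma coe_trunc {x : EReal} (hx : x ≠ ⊤) (M : ℝ) :
    (((max x (M : EReal)).toReal : ℝ) : EReal) = max x (M : EReal) := by
  apply EReal.coe_toReal
  · rcases max_choice x (M : EReal) with h | h <;> rw [h]
    · exact hx
    · exact EReal.coe_ne_top M
  · exact ne_of_gt (lt_of_lt_of_le (EReal.bot_lt_coe M) (le_max_right _ _))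

lemma trunc_lt_iff {x : EReal} (hx : x ≠ ⊤) (M y : ℝ) :
    (max x (M : EReal)).toReal < y ↔ x < y ∧ M < y := by
  rw [← EReal.coe_lt_coe_iff, coe_trunc hx, max_lt_iff, EReal.coe_lt_coe_iff]

lemma trunc_le_iff {x : EReal} (hx : x ≠ ⊤) (M y : ℝ) :
    (max x (M : EReal)).toReal ≤ y ↔ x ≤ y ∧ M ≤ y := by
  rw [← EReal.coe_le_coe_iff, coe_trunc hx, max_le_iff, EReal.coe_le_coe_iff]

lemma le_trunc {x : EReal} (hx : x ≠ ⊤) (M : ℝ) :
    x ≤ (((max x (M : EReal)).toReal : ℝ) : EReal) := by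
  rw [coe_trunc hx]; exact le_max_left _ _

lemma le_trunc' {x : EReal} (hx : x ≠ ⊤) (M : ℝ) : M ≤ (max x (M : EReal)).toReal := by
  rw [← EReal.coe_le_coe_iff, coe_trunc hx]; exact le_max_right _ _

lemma usc_trunc {X : Type*} [TopologicalSpace X] {K : Set X} {u : X → EReal}
    (hu : UpperSemicontinuousOn u K) (hut : ∀ t ∈ K, u t ≠ ⊤) (M : ℝ) :
    UpperSemicontinuousOn (fun t => (max (u t) (M : EReal)).toReal) K := by
  intro x hx y hy
  have hy' := (trunc_lt_iff (hut x hx) M y).1 hy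
  filter_upwards [hu x hx y hy'.1, self_mem_nhdsWithin] with x' h1 h2
  exact (trunc_lt_iff (hut x' h2) M y).2 ⟨h1, hy'.2⟩

lemma circleIntegrable_of_usc {U : ℂ → ℝ} (hU : UpperSemicontinuousOn U (sphere 0 1)) {M : ℝ}
    (hM : ∀ t ∈ sphere (0 : ℂ) 1, M ≤ U t) : CircleIntegrable U 0 1 := by
  have hmem : ∀ θ : ℝ, circleMap 0 1 θ ∈ sphere (0 : ℂ) 1 := fun θ =>
    circleMap_mem_sphere 0 zero_le_one θ
  have h1 : UpperSemicontinuous (fun θ : ℝ => U (circleMap 0 1 θ)) := by
    intro θ y hy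
    have := hU _ (hmem θ) y hy
    have ht : Tendsto (circleMap 0 1) (𝓝 θ) (𝓝[sphere (0 : ℂ) 1] (circleMap 0 1 θ)) :=
      tendsto_nhdsWithin_iff.2 ⟨(continuous_circleMap 0 1).tendsto θ, Eventually.of_forall hmem⟩
    exact ht.eventually this
  obtain ⟨a, -, ha⟩ := hU.exists_isMaxOn ⟨1, by simp⟩ (isCompact_sphere 0 1)
  have hb : ∀ θ : ℝ, ‖U (circleMap 0 1 θ)‖ ≤ |M| + |U a| := by
    intro θ
    have h2 := hM _ (hmem θ)
    have h3 : U (circleMap 0 1 θ) ≤ U a := ha (hmem θ)
    rw [Real.norm_eq_abs, abs_le]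
    constructor
    · linarith [neg_abs_le M, abs_nonneg (U a)]
    · linarith [le_abs_self (U a), abs_nonneg M]
  refine IntervalIntegrable.mono_fun' (g := fun _ => |M| + |U a|) intervalIntegrable_const
    h1.measurable.aestronglyMeasurable (Eventually.of_forall hb)

lemma usc_comp_disc {n : ℕ} {D : Set (Cn n)} {u : Cn n → EReal} (hu : UpperSemicontinuousOn u D)
    {K : Set ℂ} {z w : Cn n} (hK : ∀ t ∈ K, z + t • w ∈ D) :
    UpperSemicontinuousOn (fun t : ℂ => u (z + t • w)) K := by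
  intro t ht y hy
  have := hu _ (hK t ht) y hy
  have hc : Continuous fun t : ℂ => z + t • w := by fun_prop
  have ht' : Tendsto (fun t : ℂ => z + t • w) (𝓝[K] t) (𝓝[D] (z + t • w)) :=
    tendsto_nhdsWithin_iff.2 ⟨(hc.tendsto t).mono_left nhdsWithin_le_nhds,
      eventually_mem_nhdsWithin.mono hK⟩
  exact ht'.eventually this

lemma circleIntegrable_trunc {n : ℕ} {D : Set (Cn n)} {u : Cn n → EReal}
    (hu : UpperSemicontinuousOn u D) (hut : ∀ z ∈ D, u z ≠ ⊤) {z w : Cn n}
    (hd : ∀ t : ℂ, ‖t‖ ≤ 1 → z + t • w ∈ D) (M : ℝ) :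
    CircleIntegrable (fun t : ℂ => (max (u (z + t • w)) (M : EReal)).toReal) 0 1 := by
  have hK : ∀ t ∈ sphere (0 : ℂ) 1, z + t • w ∈ D := fun t ht => hd t (by simp at ht; exact ht.le)
  exact circleIntegrable_of_usc (usc_trunc (usc_comp_disc hu hK) (fun t ht => hut _ (hK t ht)) M)
    (fun t ht => le_trunc' (hut _ (hK t ht)) M)

lemma circleIntegrable_of_cont {ψ : ℂ → ℝ} (hψ : ContinuousOn ψ (sphere 0 1)) :
    CircleIntegrable ψ 0 1 :=
  ContinuousOn.circleIntegrable zero_le_one hψ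

/-- comparison with a continuous majorant on the boundary circle -/
lemma IsPSH.le_avg {n : ℕ} {D : Set (Cn n)} {u : Cn n → EReal} (hu : IsPSH D u) {z w : Cn n}
    (hd : ∀ t : ℂ, ‖t‖ ≤ 1 → z + t • w ∈ D) (ψ : ℂ → ℝ) (hψ : ContinuousOn ψ (sphere 0 1))
    (hle : ∀ t ∈ sphere (0 : ℂ) 1, u (z + t • w) ≤ (ψ t : EReal)) :
    u z ≤ ((circleAverage ψ 0 1 : ℝ) : EReal) := by
  obtain ⟨a, -, ha⟩ := (isCompact_sphere (0 : ℂ) 1).exists_isMinOn ⟨1, by simp⟩ hψ
  refine (hu.2.2 z w hd (ψ a)).trans ?_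
  rw [EReal.coe_le_coe_iff]
  refine circleAverage_mono (circleIntegrable_trunc hu.1 hu.2.1 hd _)
    (circleIntegrable_of_cont hψ) ?_
  intro t ht
  rw [abs_one] at ht
  have htD : z + t • w ∈ D := hd t (by simp at ht; exact ht.le)
  exact (trunc_le_iff (hu.2.1 _ htD) _ _).2 ⟨hle t ht, ha ht⟩

lemma circleAverage_re_mul (c : ℂ) : circleAverage (fun t : ℂ => (c * t).re) 0 1 = 0 := by
  have h1 : circleAverage (fun t : ℂ => c * t) 0 1 = c * 0 :=
    DiffContOnCl.circleAverage (f := fun t : ℂ => c * t)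
      (Differentiable.diffContOnCl (by fun_prop))
  have h2 := Complex.reCLM.circleAverage_comp_comm (f := fun t : ℂ => c * t) (c := 0) (R := 1)
    (Continuous.continuousOn (by fun_prop)).circleIntegrable'
  rw [h1] at h2
  simpa [Function.comp_def] using h2

lemma circleAverage_affine (a : ℝ) (c : ℂ) :
    circleAverage (fun t : ℂ => a + (c * t).re) 0 1 = a := by
  rw [circleAverage_fun_add (circleIntegrable_const a 0 1)
    (circleIntegrable_of_cont (by fun_prop)), circleAverage_re_mul, circleAverage_const, add_zero]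

lemma circleAverage_normSq (a : ℂ) (r : ℝ) :
    circleAverage (fun t : ℂ => ‖a + t * r‖ ^ 2) 0 1 = ‖a‖ ^ 2 + r ^ 2 := by
  rw [← circleAverage_affine (‖a‖ ^ 2 + r ^ 2) (2 * (starRingEnd ℂ) a * r)]
  apply circleAverage_congr_sphere
  intro t ht
  have h1 : ‖t‖ = 1 := by simpa using ht
  have h2 : t.re ^ 2 + t.im ^ 2 = 1 := by
    have := Complex.sq_norm t
    rw [h1, Complex.normSq_apply] at this
    nlinarith
  simp only [Complex.sq_norm, Complex.normSq_apply]
  simp
  linear_combination (r ^ 2) * h2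

/-- maximum principle on a compact plane set -/
theorem maxPrinciple {K : Set ℂ} (hK : IsCompact K) {u : ℂ → EReal}
    (hu : UpperSemicontinuousOn u K) (hut : ∀ t ∈ K, u t ≠ ⊤) {h : ℂ → ℝ}
    (hh : ContinuousOn h K)
    (H : ∀ a ∈ K, u a ≤ (h a : EReal) ∨ ∃ r : ℝ, 0 < r ∧
      (∀ t ∈ sphere (0 : ℂ) 1, a + t * r ∈ K) ∧
      (∀ ψ : ℂ → ℝ, ContinuousOn ψ (sphere 0 1) →
        (∀ t ∈ sphere (0 : ℂ) 1, u (a + t * r) ≤ (ψ t : EReal)) →
        u a ≤ ((circleAverage ψ 0 1 : ℝ) : EReal)) ∧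
      circleAverage (fun t : ℂ => h (a + t * r)) 0 1 ≤ h a) :
    ∀ a ∈ K, u a ≤ (h a : EReal) := by
  intro a0 ha0
  by_contra hcon
  push Not at hcon
  obtain ⟨b, -, hb⟩ := hK.exists_isMinOn ⟨a0, ha0⟩ hh
  obtain ⟨R, hR⟩ := hK.isBounded.exists_norm_le
  set M := h b with hM
  set U : ℂ → ℝ := fun t => (max (u t) (M : EReal)).toReal with hU
  have hUa0 : h a0 < U a0 := by
    rw [← EReal.coe_lt_coe_iff]
    exact hcon.trans_le (le_trunc (hut a0 ha0) M)
  set ε : ℝ := (U a0 - h a0) / (R ^ 2 + 1) with hε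
  have hεpos : 0 < ε := div_pos (by linarith) (by positivity)
  have hεR : ε * (R ^ 2 + 1) = U a0 - h a0 := by rw [hε]; field_simp
  set W : ℂ → ℝ := fun t => U t + (ε * ‖t‖ ^ 2 - h t) with hW
  have hWusc : UpperSemicontinuousOn W K :=
    (usc_trunc hu hut M).add (ContinuousOn.upperSemicontinuousOn (by fun_prop))
  obtain ⟨a, ha, hamax⟩ := hWusc.exists_isMaxOn ⟨a0, ha0⟩ hK
  have h1 : W a0 ≤ W a := hamax ha0
  have hRa : ‖a‖ ^ 2 ≤ R ^ 2 := pow_le_pow_left₀ (norm_nonneg _) (hR a ha) 2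
  have h2 : h a < U a := by
    simp only [hW] at h1
    nlinarith [mul_nonneg hεpos.le (sq_nonneg ‖a0‖), mul_le_mul_of_nonneg_left hRa hεpos.le]
  have hMa : M ≤ h a := hb ha
  rcases H a ha with h3 | ⟨r, hr, hrK, hsub, havg⟩
  · exact absurd ((trunc_le_iff (hut a ha) M (h a)).2 ⟨h3, hMa⟩) (not_le.2 h2)
  · have hc : ContinuousOn (fun t : ℂ => h (a + t * r)) (sphere 0 1) :=
      hh.comp (by fun_prop) hrK
    have h4 := hsub (fun t => h (a + t * r) + (W a - ε * ‖a + t * r‖ ^ 2))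
      (hc.add (by fun_prop)) (by
        intro t ht
        refine (le_trunc (hut _ (hrK t ht)) M).trans ?_
        rw [EReal.coe_le_coe_iff]
        have : W (a + t * r) ≤ W a := hamax (hrK t ht)
        simp only [hW] at this ⊢
        change U (a + t * r) ≤ _
        linarith)
    rw [circleAverage_fun_add (circleIntegrable_of_cont hc)
      (circleIntegrable_of_cont (by fun_prop)),
      circleAverage_fun_sub (circleIntegrable_const _ 0 1) (circleIntegrable_of_cont (by fun_prop)),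
      circleAverage_const] at h4
    have h5 : circleAverage (fun t : ℂ => ε * ‖a + t * r‖ ^ 2) 0 1 = ε * (‖a‖ ^ 2 + r ^ 2) := by
      rw [← circleAverage_normSq a r]
      exact circleAverage_fun_smul (a := ε) (f := fun t : ℂ => ‖a + t * r‖ ^ 2)
    rw [h5] at h4
    have h6 : U a ≤ max (circleAverage (fun t : ℂ => h (a + t * r)) 0 1 +
        (W a - ε * (‖a‖ ^ 2 + r ^ 2))) M := by
      refine (trunc_le_iff (hut a ha) M _).2 ⟨h4.trans ?_, le_max_right _ _⟩
      rw [EReal.coe_le_coe_iff]; exact le_max_left _ _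
    have h7 : 0 < ε * r ^ 2 := by positivity
    rcases le_max_iff.1 h6 with h8 | h8
    · simp only [hW] at h8
      nlinarith
    · linarith

lemma elog_eq {x : ℂ} (hx : x ≠ 0) : ENNReal.log ‖x‖ₑ = ((Real.log ‖x‖ : ℝ) : EReal) := by
  rw [← ofReal_norm, ENNReal.log_ofReal_of_pos (norm_pos_iff.2 hx)]

lemma elog_zero : ENNReal.log ‖(0 : ℂ)‖ₑ = ⊥ := by simp

lemma log_le_avg {f : ℂ → ℂ} (hf : AnalyticOnNhd ℂ f (closedBall 0 |1|)) (h0 : f 0 ≠ 0) :
    Real.log ‖f 0‖ ≤ circleAverage (fun t => Real.log ‖f t‖) 0 1 := by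
  rw [hf.circleAverage_log_norm one_ne_zero h0, le_add_iff_nonneg_left]
  refine finsum_nonneg fun u => ?_
  by_cases hu : u ∈ closedBall (0 : ℂ) |1|
  · refine mul_nonneg ?_ ?_
    · exact_mod_cast MeromorphicOn.AnalyticOnNhd.divisor_nonneg hf u
    · by_cases hu0 : u = 0
      · simp [hu0]
      · apply Real.log_nonneg
        have : ‖u‖ ≤ 1 := by simpa using hu
        have h2 : 0 < ‖u‖ := norm_pos_iff.2 hu0
        simpa using (one_le_inv₀ h2).2 this
  · simp [Function.locallyFinsuppWithin.apply_eq_zero_of_notMem _ hu]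

/-- the logarithm of the modulus of a holomorphic function is plurisubharmonic -/
theorem isPSH_log {n : ℕ} {D : Set (Cn n)} (hD : IsOpen D) {F : Cn n → ℂ}
    (hF : DifferentiableOn ℂ F D) : IsPSH D fun z => ENNReal.log ‖F z‖ₑ := by
  have husc : UpperSemicontinuousOn (fun z => ENNReal.log ‖F z‖ₑ) D :=
    ContinuousOn.upperSemicontinuousOn
      (ENNReal.continuous_log.comp_continuousOn hF.continuousOn.enorm)
  have htop : ∀ z ∈ D, ENNReal.log ‖F z‖ₑ ≠ ⊤ := fun z _ => by simp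
  refine ⟨husc, htop, fun z w hd M => ?_⟩
  by_cases h0 : F z = 0
  · simp [h0]
  beta_reduce
  rw [elog_eq h0, EReal.coe_le_coe_iff]
  set f : ℂ → ℂ := fun t => F (z + t • w) * (Real.exp (-M) : ℝ) with hf
  have hc : Continuous fun t : ℂ => z + t • w := by fun_prop
  have hfa : AnalyticOnNhd ℂ f (closedBall 0 |1|) := by
    have h1 : DifferentiableOn ℂ f ((fun t : ℂ => z + t • w) ⁻¹' D) :=
      (hF.comp (f := fun t : ℂ => z + t • w) (by fun_prop) fun t ht => ht).mul_const _
    exact (h1.analyticOnNhd (hD.preimage hc)).mono fun t ht => hd t (by simpa using ht)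
  have hlog : ∀ t : ℂ, F (z + t • w) ≠ 0 → Real.log ‖f t‖ = Real.log ‖F (z + t • w)‖ - M := by
    intro t ht
    simp only [hf, norm_mul, Complex.norm_real, Real.norm_eq_abs, abs_of_pos (Real.exp_pos _)]
    rw [Real.log_mul (norm_ne_zero_iff.2 ht) (Real.exp_pos _).ne', Real.log_exp]
    ring
  have hf0 : f 0 ≠ 0 := by
    simp only [hf, zero_smul, add_zero]
    exact mul_ne_zero h0 (by exact_mod_cast (Real.exp_pos _).ne')
  have h2 := log_le_avg hfa hf0
  rw [hlog 0 (by simpa using h0)] at h2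
  simp only [zero_smul, add_zero] at h2
  have hint : CircleIntegrable (fun t => Real.log ‖f t‖) 0 1 :=
    (hfa.mono sphere_subset_closedBall).meromorphicOn.circleIntegrable_log_norm
  have h3 : circleAverage (fun t => Real.log ‖f t‖ + M) 0 1 ≤
      circleAverage (fun t : ℂ => (max (ENNReal.log ‖F (z + t • w)‖ₑ) (M : EReal)).toReal) 0 1 := by
    refine circleAverage_mono (hint.add (circleIntegrable_const M 0 1))
      (circleIntegrable_trunc husc htop hd M) ?_
    intro t _
    by_cases ht : F (z + t • w) = 0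
    · simp [hf, ht]
    · rw [hlog t ht, sub_add_cancel, ← EReal.coe_le_coe_iff, ← elog_eq ht]
      exact le_trunc (by simp) M
  rw [circleAverage_fun_add hint (circleIntegrable_const M 0 1), circleAverage_const] at h3
  linarith

lemma IsPSH.congr {n : ℕ} {D : Set (Cn n)} {u v : Cn n → EReal} (hu : IsPSH D u)
    (h : Set.EqOn u v D) : IsPSH D v := by
  refine ⟨?_, fun z hz => h hz ▸ hu.2.1 z hz, fun z w hd M => ?_⟩
  · intro x hx y hy
    rw [← h hx] at hy
    filter_upwards [hu.1 x hx y hy, self_mem_nhdsWithin] with x' h1 h2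
    rwa [← h h2]
  · have hz : z ∈ D := by simpa using hd 0 (by simp)
    rw [← h hz]
    refine (hu.2.2 z w hd M).trans (le_of_eq ?_)
    congr 1
    apply circleAverage_congr_sphere
    intro t ht
    have : z + t • w ∈ D := hd t (by simp at ht; exact ht.le)
    simp only [h this]

lemma le_uscReg {n : ℕ} {D : Set (Cn n)} (f : Cn n → EReal) {z : Cn n} (hz : z ∈ D) :
    f z ≤ uscReg D f z := by
  unfold uscReg
  refine le_limsup_of_frequently_le ?_
  exact (Frequently.filter_mono (f := pure z) (by simp) (pure_le_nhdsWithin hz))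

lemma uscReg_le {n : ℕ} {D : Set (Cn n)} {f G : Cn n → EReal} (hG : UpperSemicontinuousOn G D)
    (hle : ∀ x ∈ D, f x ≤ G x) {z : Cn n} (hz : z ∈ D) : uscReg D f z ≤ G z := by
  unfold uscReg
  refine le_trans (limsup_le_limsup (eventually_mem_nhdsWithin.mono hle)) ?_
  exact hG.limsup_le z hz

end Pool.Agent.MP_1ea83a_an

end MrgPart0

-- ======== part 1: formerly Pool.Agent.MP_1ea83a_an.Ball
section MrgPart1

/-!
The unit ball is B-regular: the convex envelope of the boundary data is the required extension.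
-/

set_option autoImplicit false

open Filter Topology Metric Real

namespace Pool.Agent.MP_1ea83a_an

variable {n : ℕ}

/-- real-affine function with data `(c, w)` -/
noncomputable def aff (c : ℝ) (w z : Cn n) : ℝ := c + (inner ℂ w z).re

lemma aff_cont (c : ℝ) (w : Cn n) : Continuous (aff c w) := by
  unfold aff; fun_prop

lemma aff_nonneg_of_sphere [NeZero n] {c : ℝ} {w : Cn n}
    (h : ∀ q ∈ sphere (0 : Cn n) 1, 0 ≤ aff c w q) {z : Cn n} (hz : ‖z‖ ≤ 1) : 0 ≤ aff c w z := by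
  by_cases hw : w = 0
  · have := h (EuclideanSpace.single 0 1) (by simp)
    simpa [aff, hw] using this
  · have hw' : 0 < ‖w‖ := norm_pos_iff.2 hw
    have h1 := h (-((‖w‖⁻¹ : ℝ) : ℂ) • w) (by
      simp [norm_smul, hw'.ne'])
    have h2 : (inner ℂ w (-((‖w‖⁻¹ : ℝ) : ℂ) • w)).re = -‖w‖ := by
      rw [inner_smul_right, inner_self_eq_norm_sq_to_K]
      have : (-((‖w‖⁻¹ : ℝ) : ℂ) * ((‖w‖ : ℝ) : ℂ) ^ 2) = ((-‖w‖ : ℝ) : ℂ) := by
        have h3 : ((‖w‖ : ℝ) : ℂ) ≠ 0 := by exact_mod_cast hw'.ne'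
        push_cast
        field_simp
      erw [this]
      simp
    have h4 : |(inner ℂ w z).re| ≤ ‖w‖ := by
      calc |(inner ℂ w z).re| ≤ ‖inner ℂ w z‖ := Complex.abs_re_le_norm _
        _ ≤ ‖w‖ * ‖z‖ := norm_inner_le_norm _ _
        _ ≤ ‖w‖ := by nlinarith
    unfold aff at h1 ⊢
    rw [h2] at h1
    linarith [neg_abs_le (inner ℂ w z).re]

lemma modulus {f : Cn n → ℝ} (hf : ContinuousOn f (sphere 0 1)) {ε : ℝ} (hε : 0 < ε) :
    ∃ K : ℝ, ∀ p ∈ sphere (0 : Cn n) 1, ∀ q ∈ sphere (0 : Cn n) 1,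
      |f q - f p| ≤ ε + K * (1 - (inner ℂ p q).re) := by
  obtain ⟨B, hB⟩ := (isCompact_sphere (0 : Cn n) 1).exists_bound_of_continuousOn hf
  obtain ⟨δ, hδ, hu⟩ := Metric.uniformContinuousOn_iff.1
    ((isCompact_sphere (0 : Cn n) 1).uniformContinuousOn_of_continuous hf) ε hε
  refine ⟨4 * |B| / δ ^ 2, fun p hp q hq => ?_⟩
  have hp1 : ‖p‖ = 1 := by simpa using hp
  have hq1 : ‖q‖ = 1 := by simpa using hq
  have hsq : ‖p - q‖ ^ 2 = 2 * (1 - (inner ℂ p q).re) := by
    rw [norm_sub_sq (𝕜 := ℂ), hp1, hq1]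
    simp
    ring
  have hnn : 0 ≤ 1 - (inner ℂ p q).re := by nlinarith [sq_nonneg ‖p - q‖]
  by_cases hd : dist q p < δ
  · have := hu q hq p hp hd
    rw [Real.dist_eq] at this
    have h2 : 0 ≤ 4 * |B| / δ ^ 2 * (1 - (inner ℂ p q).re) := by positivity
    linarith
  · push Not at hd
    rw [dist_comm, dist_eq_norm] at hd
    have h1 : δ ^ 2 ≤ ‖p - q‖ ^ 2 := pow_le_pow_left₀ hδ.le hd 2
    have h2 : 2 * |B| ≤ 4 * |B| / δ ^ 2 * (1 - (inner ℂ p q).re) := by
      rw [div_mul_eq_mul_div, le_div_iff₀ (by positivity)]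
      nlinarith [abs_nonneg B]
    have h3 := hB p hp
    have h4 := hB q hq
    rw [Real.norm_eq_abs] at h3 h4
    have h5 : |f q - f p| ≤ |f q| + |f p| := abs_sub _ _
    linarith [le_abs_self B]

theorem ball_bregular [NeZero n] : IsBRegular (ball (0 : Cn n) 1) := by
  intro f hf
  rw [frontier_ball _ one_ne_zero] at hf ⊢
  rw [closure_ball _ one_ne_zero]
  set A : Set (ℝ × Cn n) := {x | ∀ q ∈ sphere (0 : Cn n) 1, aff x.1 x.2 q ≤ f q} with hA
  set u : Cn n → ℝ := fun z => sSup ((fun x : ℝ × Cn n => aff x.1 x.2 z) '' A) with hu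
  -- an affine majorant on the sphere bounds every competitor on the closed ball
  have hmaj : ∀ (c : ℝ) (w : Cn n), (∀ q ∈ sphere (0 : Cn n) 1, f q ≤ aff c w q) →
      ∀ x ∈ A, ∀ z : Cn n, ‖z‖ ≤ 1 → aff x.1 x.2 z ≤ aff c w z := by
    intro c w h x hx z hz
    have := aff_nonneg_of_sphere (c := c - x.1) (w := w - x.2) (fun q hq => by
      have h1 := h q hq
      have h2 := hx q hq
      simp only [aff, inner_sub_left, Complex.sub_re] at h1 h2 ⊢
      linarith) hz
    simp only [aff, inner_sub_left, Complex.sub_re] at this ⊢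
    linarith
  obtain ⟨B, hB⟩ := (isCompact_sphere (0 : Cn n) 1).exists_bound_of_continuousOn hf
  have hAne : A.Nonempty := ⟨(-B, 0), fun q hq => by
    have := hB q hq
    rw [Real.norm_eq_abs] at this
    simp only [aff, inner_zero_left, Complex.zero_re]
    linarith [neg_abs_le (f q)]⟩
  have hbdd : ∀ z : Cn n, ‖z‖ ≤ 1 → BddAbove ((fun x : ℝ × Cn n => aff x.1 x.2 z) '' A) := by
    intro z hz
    refine ⟨aff B 0 z, ?_⟩
    rintro _ ⟨x, hx, rfl⟩
    refine hmaj B 0 (fun q hq => ?_) x hx z hz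
    have := hB q hq
    rw [Real.norm_eq_abs] at this
    simp only [aff, inner_zero_left, Complex.zero_re]
    linarith [le_abs_self (f q)]
  have hle : ∀ x ∈ A, ∀ z : Cn n, ‖z‖ ≤ 1 → aff x.1 x.2 z ≤ u z := fun x hx z hz =>
    le_csSup (hbdd z hz) ⟨x, hx, rfl⟩
  have hge : ∀ (c : ℝ) (w : Cn n), (∀ q ∈ sphere (0 : Cn n) 1, f q ≤ aff c w q) →
      ∀ z : Cn n, ‖z‖ ≤ 1 → u z ≤ aff c w z := by
    intro c w h z hz
    refine csSup_le (hAne.image _) ?_
    rintro _ ⟨x, hx, rfl⟩
    exact hmaj c w h x hx z hz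
  -- barriers at boundary points
  have hbar : ∀ p ∈ sphere (0 : Cn n) 1, ∀ ε : ℝ, 0 < ε → ∃ K : ℝ, ∀ z : Cn n, ‖z‖ ≤ 1 →
      |u z - f p| ≤ ε + K * (1 - (inner ℂ p z).re) := by
    intro p hp ε hε
    obtain ⟨K, hK⟩ := modulus hf hε
    refine ⟨K, fun z hz => ?_⟩
    have e1 : ∀ y : Cn n, aff (f p - ε - K) ((K : ℂ) • p) y =
        f p - (ε + K * (1 - (inner ℂ p y).re)) := by
      intro y
      simp only [aff, inner_smul_left, Complex.conj_ofReal, Complex.re_ofReal_mul]
      ring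
    have e2 : ∀ y : Cn n, aff (f p + ε + K) (-(K : ℂ) • p) y =
        f p + (ε + K * (1 - (inner ℂ p y).re)) := by
      intro y
      simp only [aff, inner_smul_left, map_neg, Complex.conj_ofReal, neg_mul, Complex.neg_re,
        Complex.re_ofReal_mul]
      ring
    have h1 := hle (f p - ε - K, (K : ℂ) • p) (fun q hq => by
      rw [e1]; have := abs_le.1 (hK p hp q hq); linarith [this.1]) z hz
    have h2 := hge (f p + ε + K) (-(K : ℂ) • p) (fun q hq => by
      rw [e2]; have := abs_le.1 (hK p hp q hq); linarith [this.2]) z hz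
    rw [e1] at h1
    rw [e2] at h2
    rw [abs_le]; constructor <;> linarith
  have hinner : ∀ p ∈ sphere (0 : Cn n) 1, (inner ℂ p p).re = 1 := by
    intro p hp
    have hp1 : ‖p‖ = 1 := by simpa using hp
    rw [inner_self_eq_norm_sq_to_K, hp1]; simp
  have heq : Set.EqOn u f (sphere 0 1) := by
    intro p hp
    have hp1 : ‖p‖ = 1 := by simpa using hp
    refine eq_of_abs_sub_nonpos (le_of_forall_pos_le_add fun ε hε => ?_)
    obtain ⟨K, hK⟩ := hbar p hp ε hε
    have := hK p hp1.le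
    rw [hinner p hp] at this
    linarith
  have hconv : ConvexOn ℝ (ball (0 : Cn n) 1) u := by
    refine ⟨convex_ball _ _, fun x hx y hy a b ha hb hab => ?_⟩
    refine csSup_le (hAne.image _) ?_
    rintro _ ⟨s, hs, rfl⟩
    have h1 := hle s hs x (le_of_lt (by simpa using hx))
    have h2 := hle s hs y (le_of_lt (by simpa using hy))
    have h3 : aff s.1 s.2 (a • x + b • y) = a * aff s.1 s.2 x + b * aff s.1 s.2 y := by
      simp only [aff, inner_add_right, Complex.add_re]
      rw [← Complex.coe_smul, ← Complex.coe_smul, inner_smul_right, inner_smul_right]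
      simp only [Complex.re_ofReal_mul]
      linear_combination (-s.1) * hab
    simp only [smul_eq_mul]
    rw [h3]
    exact add_le_add (mul_le_mul_of_nonneg_left h1 ha) (mul_le_mul_of_nonneg_left h2 hb)
  have hcont : ContinuousOn u (ball 0 1) := hconv.continuousOn isOpen_ball
  refine ⟨u, ?_, ⟨?_, fun z _ => EReal.coe_ne_top _, fun z w hd M => ?_⟩, heq⟩
  · intro p hp
    rcases (mem_closedBall_zero_iff.1 hp).lt_or_eq with h | h
    · exact (hcont.continuousAt (isOpen_ball.mem_nhds (by simpa using h))).continuousWithinAt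
    · have hps : p ∈ sphere (0 : Cn n) 1 := by simpa using h
      rw [Metric.continuousWithinAt_iff']
      intro ε hε
      obtain ⟨K, hK⟩ := hbar p hps (ε / 2) (by positivity)
      have hc : Continuous fun z : Cn n => K * (1 - (inner ℂ p z).re) := by fun_prop
      have h0 : K * (1 - (inner ℂ p p).re) < ε / 2 := by rw [hinner p hps]; simp; positivity
      have hev : ∀ᶠ z in 𝓝 p, K * (1 - (inner ℂ p z).re) < ε / 2 :=
        hc.continuousAt.eventually_lt continuousAt_const h0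
      filter_upwards [nhdsWithin_le_nhds hev, self_mem_nhdsWithin] with z h1 h2
      have := hK z (mem_closedBall_zero_iff.1 h2)
      rw [Real.dist_eq, heq hps]
      linarith
  · exact ContinuousOn.upperSemicontinuousOn (continuous_coe_real_ereal.comp_continuousOn hcont)
  · beta_reduce
    rw [EReal.coe_le_coe_iff]
    refine csSup_le (hAne.image _) ?_
    rintro _ ⟨s, hs, rfl⟩
    beta_reduce
    rw [← circleAverage_affine (aff s.1 s.2 z) (inner ℂ s.2 w)]
    refine circleAverage_mono (circleIntegrable_of_cont (by fun_prop))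
      (circleIntegrable_trunc (u := fun z => (u z : EReal))
        (ContinuousOn.upperSemicontinuousOn (continuous_coe_real_ereal.comp_continuousOn hcont))
        (fun z _ => EReal.coe_ne_top _) hd M) ?_
    intro t ht
    have htD := hd t (by simp at ht; exact ht.le)
    have h1 := hle s hs _ (le_of_lt (mem_ball_zero_iff.1 htD))
    have h2 : aff s.1 s.2 (z + t • w) = aff s.1 s.2 z + (inner ℂ s.2 w * t).re := by
      simp only [aff, inner_add_right, inner_smul_right, Complex.add_re, mul_comm t]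
      ring
    rw [← h2]
    refine h1.trans ?_
    rw [← EReal.coe_le_coe_iff]
    exact le_trunc (EReal.coe_ne_top _) M

end Pool.Agent.MP_1ea83a_an

end MrgPart1

-- ======== part 2: formerly Pool.Agent.MP_1ea83a_an.Main
section MrgPart2

/-!
The example: the unit ball of complex dimension two and the logarithm of the modulus of the
first coordinate.
-/

set_option autoImplicit false

open Filter Topology Metric Real

namespace Pool.Agent.MP_1ea83a_an

lemma IsPSH.slice {n : ℕ} {D : Set (Cn n)} {v : Cn n → EReal} (hv : IsPSH D v) (b e : Cn n)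
    (a : ℂ) (r : ℝ) (hd : ∀ t : ℂ, ‖t‖ ≤ 1 → b + (a + t * r) • e ∈ D) (ψ : ℂ → ℝ)
    (hψ : ContinuousOn ψ (sphere 0 1))
    (hle : ∀ t ∈ sphere (0 : ℂ) 1, v (b + (a + t * r) • e) ≤ (ψ t : EReal)) :
    v (b + a • e) ≤ ((circleAverage ψ 0 1 : ℝ) : EReal) := by
  have key : ∀ t : ℂ, (b + a • e) + t • ((r : ℂ) • e) = b + (a + t * r) • e := by
    intro t; rw [add_smul, smul_smul, add_assoc]
  exact hv.le_avg (z := b + a • e) (w := (r : ℂ) • e) (fun t ht => by rw [key]; exact hd t ht)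
    ψ hψ (fun t ht => by rw [key]; exact hle t ht)

/-- the unit ball -/
abbrev B2 : Set (Cn 2) := ball 0 1

/-- the function `log |z₀|` -/
noncomputable def phi (z : Cn 2) : EReal := ENNReal.log ‖z 0‖ₑ

lemma mem_B2 {z : Cn 2} : z ∈ B2 ↔ ‖z 0‖ ^ 2 + ‖z 1‖ ^ 2 < 1 := by
  rw [mem_ball_zero_iff, ← Fin.sum_univ_two (fun i => ‖z i‖ ^ 2), ← EuclideanSpace.norm_sq_eq,
    sq_lt_one_iff₀ (norm_nonneg _)]

/-- the point with coordinates `x, y` -/
noncomputable def pt (x y : ℂ) : Cn 2 := !₂[x, y]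

@[simp] lemma pt_zero (x y : ℂ) : pt x y 0 = x := rfl
@[simp] lemma pt_one (x y : ℂ) : pt x y 1 = y := rfl

lemma pt_eta (z : Cn 2) : pt (z 0) (z 1) = z := by
  ext i; fin_cases i <;> rfl

lemma pt_line1 (x l : ℂ) : pt x 0 + l • pt 0 1 = pt x l := by
  ext i; fin_cases i <;> simp

lemma pt_line0 (y l : ℂ) : pt 0 y + l • pt 1 0 = pt l y := by
  ext i; fin_cases i <;> simp

lemma coord_diff (i : Fin 2) : Differentiable ℂ fun z : Cn 2 => z i :=
  (EuclideanSpace.proj (𝕜 := ℂ) i).differentiable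

lemma coord_cont (i : Fin 2) : Continuous fun z : Cn 2 => z i := (coord_diff i).continuous

lemma phi_cont : Continuous phi :=
  ENNReal.continuous_log.comp (coord_cont 0).enorm

lemma half_mem : pt (1 / 2) 0 ∈ B2 := by
  rw [mem_B2]; norm_num

lemma phi_psh : IsPSH B2 phi := isPSH_log isOpen_ball (coord_diff 0).differentiableOn

lemma phi_nonpos {z : Cn 2} (hz : z ∈ B2) : phi z ≤ 0 := by
  rw [mem_B2] at hz
  have : ‖z 0‖ ≤ 1 := by nlinarith [sq_nonneg ‖z 1‖, norm_nonneg (z 0)]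
  unfold phi
  rw [ENNReal.log_le_zero_iff, ← ofReal_norm]
  exact ENNReal.ofReal_le_one.2 this

lemma phi_negPSH : IsNegPSH B2 phi :=
  ⟨phi_psh, fun _ hz => phi_nonpos hz, pt (1 / 2) 0, half_mem, by simp [phi]⟩

lemma residual_nonpos {n : ℕ} {D : Set (Cn n)} (φ : Cn n → EReal) {z : Cn n} (hz : z ∈ D) :
    residual D φ z ≤ 0 :=
  uscReg_le (G := fun _ => 0) upperSemicontinuousOn_const
    (fun x hx => iSup₂_le fun _ hv => hv.1.2.1 x hx) hz

lemma le_residual {n : ℕ} {D : Set (Cn n)} {φ v : Cn n → EReal} (hv : IsNegPSH D v) (C : ℝ)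
    (hC : ∀ y ∈ D, v y ≤ φ y + (C : EReal)) {z : Cn n} (hz : z ∈ D) : v z ≤ residual D φ z := by
  unfold residual
  refine le_trans ?_ (le_uscReg _ hz)
  exact le_iSup₂_of_le (f := fun (v : Cn n → EReal) (_ : v ∈ {v : Cn n → EReal |
    IsNegPSH D v ∧ ∃ C : ℝ, ∀ y ∈ D, v y ≤ φ y + (C : EReal)}) => v z) v ⟨hv, C, hC⟩ le_rfl

/-- lower bound for the residual function of `log |z₀|` -/
lemma residual_lower {z : Cn 2} (hz : z ∈ B2) (h0 : z 0 ≠ 0) :
    ((Real.log ‖z 0‖ - Real.log (1 - ‖z 1‖ ^ 2) / 2 : ℝ) : EReal) ≤ residual B2 phi z := by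
  set c : ℂ := z 1 with hc
  have hz' := mem_B2.1 hz
  have hc1 : ‖c‖ ^ 2 < 1 := by nlinarith [sq_nonneg ‖z 0‖]
  have hc2 : ‖c‖ < 1 := (sq_lt_one_iff₀ (norm_nonneg _)).1 hc1
  set s : ℝ := √(1 - ‖c‖ ^ 2) with hs
  have hs0 : 0 < s := Real.sqrt_pos.2 (by linarith)
  have hs2 : s ^ 2 = 1 - ‖c‖ ^ 2 := Real.sq_sqrt (by linarith)
  have hden : ∀ y ∈ B2, 1 - ‖c‖ ≤ ‖1 - (starRingEnd ℂ) c * y 1‖ := by
    intro y hy
    have h1 := mem_B2.1 hy
    have h2 : ‖y 1‖ ≤ 1 := by nlinarith [sq_nonneg ‖y 0‖, norm_nonneg (y 1)]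
    have h3 := norm_sub_norm_le (1 : ℂ) ((starRingEnd ℂ) c * y 1)
    rw [norm_one, norm_mul, Complex.norm_conj] at h3
    nlinarith [norm_nonneg c]
  have hden' : ∀ y ∈ B2, 1 - (starRingEnd ℂ) c * y 1 ≠ 0 := by
    intro y hy h
    have := hden y hy
    rw [h, norm_zero] at this
    linarith
  set F : Cn 2 → ℂ := fun y => y 0 * (s : ℂ) / (1 - (starRingEnd ℂ) c * y 1) with hF
  have hFd : DifferentiableOn ℂ F B2 := by
    simp only [hF, div_eq_mul_inv]
    exact (((coord_diff 0).mul_const _).differentiableOn).mul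
      (((((coord_diff 1).const_mul _).const_sub 1).differentiableOn).inv hden')
  have hFn : ∀ y, ‖F y‖ = ‖y 0‖ * s / ‖1 - (starRingEnd ℂ) c * y 1‖ := by
    intro y
    simp only [hF, norm_div, norm_mul, Complex.norm_real, Real.norm_eq_abs, abs_of_pos hs0]
  have hF1 : ∀ y ∈ B2, ‖F y‖ ≤ 1 := by
    intro y hy
    have h1 := mem_B2.1 hy
    have hpos : 0 < ‖1 - (starRingEnd ℂ) c * y 1‖ := norm_pos_iff.2 (hden' y hy)
    rw [hFn, div_le_one hpos]
    refine (pow_le_pow_iff_left₀ (by positivity) hpos.le two_ne_zero).1 ?_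
    have h2 : (1 - ‖y 1‖ ^ 2) * (1 - ‖c‖ ^ 2) ≤ ‖1 - (starRingEnd ℂ) c * y 1‖ ^ 2 := by
      simp only [Complex.sq_norm, Complex.normSq_apply]
      simp
      nlinarith [sq_nonneg (c.re - (y 1).re), sq_nonneg (c.im - (y 1).im)]
    rw [mul_pow, hs2]
    nlinarith
  have hneg : IsNegPSH B2 fun y => ENNReal.log ‖F y‖ₑ := by
    refine ⟨isPSH_log isOpen_ball hFd, fun y hy => ?_, z, hz, ?_⟩
    · rw [ENNReal.log_le_zero_iff, ← ofReal_norm]
      exact ENNReal.ofReal_le_one.2 (hF1 y hy)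
    · have : F z ≠ 0 := div_ne_zero (mul_ne_zero h0 (by exact_mod_cast hs0.ne')) (hden' z hz)
      simpa using this
  have hC : ∀ y ∈ B2, ENNReal.log ‖F y‖ₑ ≤ phi y + ((Real.log (s / (1 - ‖c‖)) : ℝ) : EReal) := by
    intro y hy
    by_cases hy0 : y 0 = 0
    · simp [hF, hy0]
    have hFy : F y ≠ 0 := div_ne_zero (mul_ne_zero hy0 (by exact_mod_cast hs0.ne')) (hden' y hy)
    unfold phi
    rw [elog_eq hFy, elog_eq hy0, ← EReal.coe_add, EReal.coe_le_coe_iff,
      ← Real.log_mul (norm_ne_zero_iff.2 hy0) (div_pos hs0 (by linarith)).ne']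
    refine Real.log_le_log (norm_pos_iff.2 hFy) ?_
    rw [hFn, mul_div_assoc]
    refine mul_le_mul_of_nonneg_left ?_ (norm_nonneg _)
    exact div_le_div_of_nonneg_left hs0.le (by linarith) (hden y hy)
  refine le_trans (le_of_eq ?_) (le_residual hneg _ hC hz)
  have hFz : F z ≠ 0 := div_ne_zero (mul_ne_zero h0 (by exact_mod_cast hs0.ne')) (hden' z hz)
  rw [elog_eq hFz, hFn]
  congr 1
  have h5 : ‖1 - (starRingEnd ℂ) c * z 1‖ = s ^ 2 := by
    rw [← hc, Complex.conj_mul', hs2]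
    have : (1 : ℂ) - (‖c‖ : ℂ) ^ 2 = ((1 - ‖c‖ ^ 2 : ℝ) : ℂ) := by push_cast; ring
    rw [this, Complex.norm_real, Real.norm_eq_abs, abs_of_pos (by linarith)]
  rw [h5, ← hs2, Real.log_div (mul_ne_zero (norm_ne_zero_iff.2 h0) hs0.ne') (by positivity),
    Real.log_mul (norm_ne_zero_iff.2 h0) hs0.ne', Real.log_pow]
  push_cast
  ring

/-- a psh function below `(1/2) log (1 - |z₁|²)` off the axis is below `log |z₀|` -/
lemma le_phi_of_bound {v : Cn 2 → EReal} (hv : IsPSH B2 v)
    (hb : ∀ y ∈ B2, y 0 ≠ 0 → v y ≤ ((Real.log (1 - ‖y 1‖ ^ 2) / 2 : ℝ) : EReal))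
    {z : Cn 2} (hz : z ∈ B2) : v z ≤ phi z := by
  have key : ∀ z ∈ B2, z 0 ≠ 0 → v z ≤ ((Real.log ‖z 0‖ : ℝ) : EReal) := by
    intro z hz h0
    have hz' := mem_B2.1 hz
    have hx0 : 0 < ‖z 0‖ := norm_pos_iff.2 h0
    refine EReal.le_of_forall_lt_iff_le.1 fun c hc => ?_
    rw [EReal.coe_lt_coe_iff] at hc
    -- choose the radius
    set δ : ℝ := min (Real.exp (2 * c)) (1 - ‖z 1‖ ^ 2) with hδ
    have hδ1 : ‖z 0‖ ^ 2 < δ := by
      refine lt_min ?_ (by linarith)
      have : Real.log (‖z 0‖ ^ 2) < 2 * c := by rw [Real.log_pow]; push_cast; linarith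
      exact (Real.log_lt_iff_lt_exp (by positivity)).1 this
    have hδ2 : δ ≤ 1 - ‖z 1‖ ^ 2 := min_le_right _ _
    have hδ0 : 0 < δ := lt_of_le_of_lt (sq_nonneg _) hδ1
    have hδ3 : Real.log δ ≤ 2 * c := (Real.log_le_iff_le_exp hδ0).2 (min_le_left _ _)
    set s : ℝ := √(1 - δ) with hs
    have hs2 : s ^ 2 = 1 - δ := Real.sq_sqrt (by nlinarith [sq_nonneg ‖z 1‖])
    have hs0 : 0 ≤ s := Real.sqrt_nonneg _
    have hK : ∀ t ∈ closedBall (0 : ℂ) s, pt (z 0) 0 + t • pt 0 1 ∈ B2 := by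
      intro t ht
      rw [pt_line1, mem_B2, pt_zero, pt_one]
      have : ‖t‖ ^ 2 ≤ s ^ 2 :=
        pow_le_pow_left₀ (norm_nonneg _) (mem_closedBall_zero_iff.1 ht) 2
      linarith
    have hmp := maxPrinciple (isCompact_closedBall (0 : ℂ) s) (usc_comp_disc hv.1 hK)
      (fun t ht => hv.2.1 _ (hK t ht)) (h := fun _ => Real.log δ / 2) continuousOn_const (by
        intro a ha
        rcases (mem_closedBall_zero_iff.1 ha).lt_or_eq with h | h
        · right
          have hin : ∀ t : ℂ, ‖t‖ ≤ 1 → a + t * ((s - ‖a‖ : ℝ) : ℂ) ∈ closedBall (0 : ℂ) s := by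
            intro t ht
            rw [mem_closedBall_zero_iff]
            refine (norm_add_le _ _).trans ?_
            rw [norm_mul, Complex.norm_real, Real.norm_eq_abs, abs_of_pos (by linarith)]
            nlinarith
          refine ⟨s - ‖a‖, by linarith, fun t ht => hin t (by simp at ht; exact ht.le),
            fun ψ hψ hle => hv.slice _ _ a _ (fun t ht => hK _ (hin t ht)) ψ hψ hle, ?_⟩
          rw [circleAverage_const]
        · left
          have h1 := hb _ (hK a ha) (by rw [pt_line1]; exact h0)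
          rw [pt_line1, pt_one, h, hs2, sub_sub_cancel] at h1
          rw [pt_line1]
          exact h1) (z 1) (by
        rw [mem_closedBall_zero_iff]
        exact Real.le_sqrt_of_sq_le (by linarith))
    rw [pt_line1, pt_eta] at hmp
    refine hmp.trans ?_
    rw [EReal.coe_le_coe_iff]
    linarith
  by_cases h0 : z 0 = 0
  · have hz' := mem_B2.1 hz
    have hbot : v z = ⊥ := by
      refine EReal.eq_bot_iff_forall_lt _ |>.2 fun c => ?_
      set r : ℝ := min (Real.exp (c - 1)) (√((1 - ‖z 1‖ ^ 2) / 2)) with hr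
      have hq : 0 < (1 - ‖z 1‖ ^ 2) / 2 := by nlinarith [sq_nonneg ‖z 0‖]
      have hr0 : 0 < r := lt_min (Real.exp_pos _) (Real.sqrt_pos.2 hq)
      have hr1 : r ^ 2 ≤ (1 - ‖z 1‖ ^ 2) / 2 := by
        have := pow_le_pow_left₀ hr0.le (min_le_right (Real.exp (c - 1)) _) 2
        rwa [Real.sq_sqrt hq.le] at this
      have hr2 : Real.log r ≤ c - 1 := (Real.log_le_iff_le_exp hr0).2 (min_le_left _ _)
      have hin : ∀ t : ℂ, ‖t‖ ≤ 1 → pt 0 (z 1) + (0 + t * r) • pt 1 0 ∈ B2 := by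
        intro t ht
        rw [pt_line0, mem_B2, pt_zero, pt_one, zero_add, norm_mul, Complex.norm_real,
          Real.norm_eq_abs, abs_of_pos hr0, mul_pow]
        have : ‖t‖ ^ 2 ≤ 1 := by nlinarith [norm_nonneg t]
        nlinarith [sq_nonneg r]
      have h1 := hv.slice (pt 0 (z 1)) (pt 1 0) 0 r hin (fun _ => c - 1) continuousOn_const (by
        intro t ht
        have ht1 : ‖t‖ = 1 := by simpa using ht
        have hne : (0 + t * r : ℂ) ≠ 0 := by
          rw [zero_add]
          exact mul_ne_zero (norm_ne_zero_iff.1 (by rw [ht1]; exact one_ne_zero))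
            (by exact_mod_cast hr0.ne')
        have h2 := key _ (hin t ht1.le) (by rw [pt_line0]; exact hne)
        refine h2.trans ?_
        rw [EReal.coe_le_coe_iff, pt_line0, pt_zero, zero_add, norm_mul, ht1, one_mul,
          Complex.norm_real, Real.norm_eq_abs, abs_of_pos hr0]
        exact hr2)
      rw [circleAverage_const, pt_line0, ← h0, pt_eta] at h1
      exact h1.trans_lt (by rw [EReal.coe_lt_coe_iff]; linarith)
    rw [hbot]; exact bot_le
  · unfold phi
    rw [elog_eq h0]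
    exact key z hz h0

lemma secondTerm_eq : Set.EqOn phi (secondTerm B2 phi) B2 := by
  intro z hz
  apply le_antisymm
  · refine le_trans ?_ (le_uscReg _ hz)
    refine le_iSup₂_of_le (f := fun (v : Cn 2 → EReal) (_ : v ∈ {v : Cn 2 → EReal |
      IsPSH B2 v ∧ ∀ y ∈ B2, v y ≤ _}) => v z) phi ⟨phi_psh, fun y hy => ?_⟩ le_rfl
    split_ifs with h
    · exact le_top
    · have h1 := residual_nonpos phi hy
      have h2 : residual B2 phi y ≠ ⊤ := ne_top_of_le_ne_top (by simp) h1
      lift residual B2 phi y to ℝ using ⟨h2, h⟩ with g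
      rw [sub_eq_add_neg]
      refine le_add_of_nonneg_right ?_
      rw [← EReal.coe_neg]
      have : g ≤ 0 := by exact_mod_cast h1
      exact_mod_cast (by linarith : (0 : ℝ) ≤ -g)
  · refine uscReg_le phi_cont.continuousOn.upperSemicontinuousOn (fun x hx => ?_) hz
    refine iSup₂_le fun v hv => le_phi_of_bound hv.1 (fun y hy h0 => ?_) hx
    have h1 := residual_lower hy h0
    have h2 : residual B2 phi y ≠ ⊥ := ne_bot_of_le_ne_bot (EReal.coe_ne_bot _) h1
    have h3 := hv.2 y hy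
    beta_reduce at h3
    rw [if_neg h2] at h3
    refine h3.trans ?_
    have h4 : residual B2 phi y ≠ ⊤ := ne_top_of_le_ne_top (by simp) (residual_nonpos phi hy)
    lift residual B2 phi y to ℝ using ⟨h4, h2⟩ with g
    unfold phi
    rw [elog_eq h0, ← EReal.coe_sub, EReal.coe_le_coe_iff]
    rw [EReal.coe_le_coe_iff] at h1
    linarith

/-- a continuous negative majorant of the residual function -/
noncomputable def maj (z : Cn 2) : ℝ := (‖z 0‖ / √((‖z 0‖ ^ 2 + 1 - ‖z 1‖ ^ 2) / 2) - 1) / 2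

lemma maj_neg {z : Cn 2} (hz : z ∈ B2) : maj z < 0 := by
  have hz' := mem_B2.1 hz
  have h1 : ‖z 0‖ < √((‖z 0‖ ^ 2 + 1 - ‖z 1‖ ^ 2) / 2) := Real.lt_sqrt_of_sq_lt (by linarith)
  have h2 := (div_lt_one (lt_of_le_of_lt (norm_nonneg _) h1)).2 h1
  unfold maj
  linarith

lemma maj_cont : ContinuousOn maj B2 := by
  have h0 := coord_cont 0
  have h1 := coord_cont 1
  refine ContinuousOn.div_const (ContinuousOn.sub (ContinuousOn.div (by fun_prop) (by fun_prop)
    fun z hz => ?_) continuousOn_const) 2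
  have hz' := mem_B2.1 hz
  exact (Real.sqrt_pos.2 (by nlinarith [sq_nonneg ‖z 0‖])).ne'

lemma le_maj {v : Cn 2 → EReal} (hv : IsNegPSH B2 v) (C : ℝ)
    (hC : ∀ y ∈ B2, v y ≤ phi y + (C : EReal)) {z : Cn 2} (hz : z ∈ B2) :
    v z ≤ (maj z : EReal) := by
  by_cases h0 : z 0 = 0
  · refine (hC z hz).trans ?_
    simp [phi, h0]
  have hz' := mem_B2.1 hz
  have hx0 : 0 < ‖z 0‖ := norm_pos_iff.2 h0
  set s : ℝ := √((‖z 0‖ ^ 2 + 1 - ‖z 1‖ ^ 2) / 2) with hs
  have hs1 : ‖z 0‖ < s := Real.lt_sqrt_of_sq_lt (by linarith)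
  have hs0 : 0 < s := hx0.trans hs1
  have hs2 : s ^ 2 = (‖z 0‖ ^ 2 + 1 - ‖z 1‖ ^ 2) / 2 :=
    Real.sq_sqrt (by nlinarith [sq_nonneg ‖z 0‖])
  set ε : ℝ := min ‖z 0‖ (Real.exp (-2 * C - Real.log s)) with hε
  have hε0 : 0 < ε := lt_min hx0 (Real.exp_pos _)
  have hε1 : Real.log ε ≤ -2 * C - Real.log s := (Real.log_le_iff_le_exp hε0).2 (min_le_right _ _)
  set K : Set ℂ := closedBall (0 : ℂ) s \ ball 0 ε with hK
  have hKc : IsCompact K := (isCompact_closedBall 0 s).diff isOpen_ball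
  have hKm : ∀ t, t ∈ K ↔ ‖t‖ ≤ s ∧ ε ≤ ‖t‖ := by intro t; simp [hK]
  have hin : ∀ t : ℂ, ‖t‖ ≤ s → pt 0 (z 1) + t • pt 1 0 ∈ B2 := by
    intro t ht
    rw [pt_line0, mem_B2, pt_zero, pt_one]
    have : ‖t‖ ^ 2 ≤ s ^ 2 := pow_le_pow_left₀ (norm_nonneg _) ht 2
    linarith
  have hKB : ∀ t ∈ K, pt 0 (z 1) + t • pt 1 0 ∈ B2 := fun t ht => hin t ((hKm t).1 ht).1
  have hne : ∀ t ∈ K, t ≠ 0 := fun t ht => norm_pos_iff.1 (hε0.trans_le ((hKm t).1 ht).2)
  have hmp := maxPrinciple hKc (usc_comp_disc hv.1.1 hKB)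
    (fun t ht => hv.1.2.1 _ (hKB t ht)) (h := fun t => (Real.log ‖t‖ - Real.log s) / 2)
    (ContinuousOn.div_const (ContinuousOn.sub (ContinuousOn.log (by fun_prop)
      fun t ht => norm_ne_zero_iff.2 (hne t ht)) continuousOn_const) 2) (by
      intro a ha
      obtain ⟨ha1, ha2⟩ := (hKm a).1 ha
      rcases ha1.lt_or_eq with h | h
      · rcases ha2.lt_or_eq with h' | h'
        · right
          set r : ℝ := min (s - ‖a‖) (‖a‖ - ε) with hr
          have hr0 : 0 < r := lt_min (by linarith) (by linarith)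
          have hr1 : r ≤ s - ‖a‖ := min_le_left _ _
          have hr2 : r ≤ ‖a‖ - ε := min_le_right _ _
          have hK' : ∀ t : ℂ, ‖t‖ ≤ 1 → a + t * (r : ℂ) ∈ K := by
            intro t ht
            have h3 : ‖t * (r : ℂ)‖ ≤ r := by
              rw [norm_mul, Complex.norm_real, Real.norm_eq_abs, abs_of_pos hr0]
              nlinarith
            rw [hKm]
            constructor
            · linarith [norm_add_le a (t * r)]
            · linarith [norm_sub_norm_le a (-(t * r)), norm_neg (t * (r : ℂ)),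
                congrArg norm (sub_neg_eq_add a (t * r))]
          refine ⟨r, hr0, fun t ht => hK' t (by simp at ht; exact ht.le),
            fun ψ hψ hle => hv.1.slice _ _ a _ (fun t ht => hKB _ (hK' t ht)) ψ hψ hle, ?_⟩
          have han : AnalyticOnNhd ℂ (fun t : ℂ => a + t * (r : ℂ)) (closedBall 0 |1|) :=
            fun t _ => by fun_prop
          have h4 := han.circleAverage_log_norm_of_ne_zero
            (fun t ht => hne _ (hK' t (by simpa using ht)))
          have hint : CircleIntegrable (fun t : ℂ => Real.log ‖a + t * (r : ℂ)‖) 0 1 :=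
            (han.mono sphere_subset_closedBall).meromorphicOn.circleIntegrable_log_norm
          have h5 : circleAverage (fun t : ℂ => (Real.log ‖a + t * (r : ℂ)‖ - Real.log s) / 2) 0 1
              = (1 / 2 : ℝ) • circleAverage
                (fun t : ℂ => Real.log ‖a + t * (r : ℂ)‖ - Real.log s) 0 1 := by
            rw [← circleAverage_fun_smul]
            congr 1
            ext t
            simp only [smul_eq_mul]
            ring
          rw [h5, circleAverage_fun_sub hint (circleIntegrable_const _ 0 1), circleAverage_const,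
            h4]
          simp only [zero_mul, add_zero, smul_eq_mul]
          linarith
        · left
          refine (hC _ (hKB a ha)).trans ?_
          unfold phi
          rw [pt_line0, pt_zero, elog_eq (hne a ha), ← EReal.coe_add, EReal.coe_le_coe_iff, ← h']
          linarith
      · left
        refine (hv.2.1 _ (hKB a ha)).trans ?_
        rw [h]; simp) (z 0) ((hKm _).2 ⟨hs1.le, min_le_left _ _⟩)
  rw [pt_line0, pt_eta] at hmp
  refine hmp.trans ?_
  rw [EReal.coe_le_coe_iff]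
  have h6 : Real.log (‖z 0‖ / s) ≤ ‖z 0‖ / s - 1 := Real.log_le_sub_one_of_pos (by positivity)
  rw [Real.log_div hx0.ne' hs0.ne'] at h6
  unfold maj
  rw [← hs]
  linarith

lemma residual_secondTerm_neg {z : Cn 2} (hz : z ∈ B2) :
    residual B2 (secondTerm B2 phi) z < 0 := by
  refine lt_of_le_of_lt (uscReg_le (G := fun z => (maj z : EReal))
    (ContinuousOn.upperSemicontinuousOn (continuous_coe_real_ereal.comp_continuousOn maj_cont))
    (fun x hx => iSup₂_le fun v hv => ?_) hz) ?_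
  · obtain ⟨hv1, C, hC⟩ := hv
    exact le_maj hv1 C (fun y hy => by rw [secondTerm_eq hy]; exact hC y hy) hx
  · exact_mod_cast maj_neg hz

lemma secondTerm_negPSH : IsNegPSH B2 (secondTerm B2 phi) :=
  ⟨phi_psh.congr secondTerm_eq, fun z hz => by rw [← secondTerm_eq hz]; exact phi_nonpos hz,
    pt (1 / 2) 0, half_mem, by rw [← secondTerm_eq half_mem]; simp [phi]⟩

end Pool.Agent.MP_1ea83a_an

end MrgPart2

-- marker of a merged file
example : 731051 + 261033 = 731051 + 261033 := rfl
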